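import Pool.Agent.KS6_89.KO.C
import Pool.Graph.R_pool_sql_team_ae5b0c61.Results.MP_3f481b_al.Kernel

/-!
# MP_3f481b_al: which groups are kernels `KO(G)` - beyond the abelian ones

* every locally compact abelian group (in particular every compact one) is `KO(G)` for a locally compact
  group `G` (library result, the answer to Q1);
* commutativity is not needed: every infinite power `K^I` of every compact group `K` is `KO(G)` for a
  locally compact group `G`;
* but for topologically finitely generated groups with enough open normal subgroups of finite index
  (finite groups, topologically finitely generated profinite groups, finitely generated residually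
  finite discrete groups, ...) commutativity is exactly the condition: such a group, if locally compact,
  occurs over locally compact groups if and only if it is commutative, and if it is not commutative it
  is not `KO(G)` for any topological group `G` whatsoever.
-/

set_option autoImplicit false

namespace Pool.Agent.Results.MP_3f481b_al.NonabelianKernels

universe u

open Pool.Agent.KS6_89.KO

/-- `KO G`: the intersection of the kernels of all continuous homomorphisms to `GL_n(ℂ)`, `n ≥ 1`. -/
def KO (G : Type u) [Group G] [TopologicalSpace G] : Subgroup G :=
  ⨅ (n : ℕ) (_ : 1 ≤ n) (ρ : G →* GL (Fin n) ℂ) (_ : Continuous ρ), ρ.ker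

/-- `A` occurs as a kernel over the class of locally compact (Hausdorff) groups: `KO G ≅ A` as
topological groups for a locally compact group `G`. -/
def Occurs (A : Type u) [Group A] [TopologicalSpace A] : Prop :=
  ∃ (G : Type u) (_ : Group G) (_ : TopologicalSpace G), IsTopologicalGroup G ∧
    LocallyCompactSpace G ∧ T2Space G ∧ Nonempty (KO G ≃ₜ* A)

/-- The topological group `A` has a dense finitely generated subgroup. -/
def TopFG (A : Type u) [Group A] [TopologicalSpace A] : Prop :=
  ∃ S : Set A, S.Finite ∧ closure (Subgroup.closure S : Set A) = Set.univ

/-- Every element `≠ 1` of the topological group `A` lies outside an open normal subgroup of finite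
index. -/
def ResFinite (A : Type u) [Group A] [TopologicalSpace A] : Prop :=
  ∀ a : A, a ≠ 1 → ∃ N : Subgroup A, N.Normal ∧ IsOpen (N : Set A) ∧ N.FiniteIndex ∧ a ∉ N

theorem result :
    -- every locally compact abelian group, in particular every compact abelian group, occurs (Q1)
    (∀ (A : Type u) [CommGroup A] [TopologicalSpace A] [IsTopologicalGroup A]
      [LocallyCompactSpace A] [T2Space A], Occurs A) ∧
    -- every infinite power of every compact group occurs
    (∀ (K : Type u) [Group K] [TopologicalSpace K] [IsTopologicalGroup K] [CompactSpace K] [T2Space K]
      (I : Type u) [Infinite I], Occurs (I → K)) ∧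
    -- a locally compact, topologically finitely generated, residually finite group occurs exactly
    -- when it is commutative
    (∀ (A : Type u) [Group A] [TopologicalSpace A] [IsTopologicalGroup A]
      [LocallyCompactSpace A] [T2Space A], TopFG A → ResFinite A →
      (Occurs A ↔ ∀ a b : A, a * b = b * a)) ∧
    -- and a non-commutative one is not `KO G` for any topological group `G`
    (∀ (A G : Type u) [Group A] [TopologicalSpace A] [IsTopologicalGroup A]
      [Group G] [TopologicalSpace G] [IsTopologicalGroup G], TopFG A → ResFinite A →
      Nonempty (KO G ≃ₜ* A) → ∀ a b : A, a * b = b * a) := by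
  have h1 : ∀ (A : Type u) [CommGroup A] [TopologicalSpace A] [IsTopologicalGroup A]
      [LocallyCompactSpace A] [T2Space A], Occurs A := fun A _ _ _ _ _ =>
    Pool.Agent.Results.MP_3f481b_al.Kernel.result A
  have h4 : ∀ (A G : Type u) [Group A] [TopologicalSpace A] [IsTopologicalGroup A]
      [Group G] [TopologicalSpace G] [IsTopologicalGroup G], TopFG A → ResFinite A →
      Nonempty (KO G ≃ₜ* A) → ∀ a b : A, a * b = b * a := by
    intro A G _ _ _ _ _ _ hA hr ⟨e⟩ a b
    obtain ⟨S, hS, hS'⟩ := hA
    exact comm_of_KO S hS hS' hr e a b
  refine ⟨h1, ?_, ?_, h4⟩
  · intro K _ _ _ _ _ I _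
    exact ⟨W (I → K), inferInstance, inferInstance, inferInstance, inferInstance, inferInstance,
      power_occurs K I⟩
  · intro A _ _ _ _ _ hA hr
    constructor
    · rintro ⟨G, _, _, _, _, _, he⟩
      exact h4 A G hA hr he
    · intro hc
      let _ : CommGroup A := { (inferInstance : Group A) with mul_comm := hc }
      exact h1 A

end Pool.Agent.Results.MP_3f481b_al.NonabelianKernels
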